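import Pool.Agent.COV.StmtsA

set_option autoImplicit false

/-!
# COV, row ALG: the map has exactly four branch points
-/

namespace Pool.Agent.COV.H27

open Polynomial

theorem alg (h1 : Ar1Stmt) (h2 : Ar2Stmt) (h3 : Ar3Stmt) (h4 : Ar4Stmt) : AlgStmt := by
  classical
  intro k _ _ _ f s P Q V hf hsq hs hs1 hPQ hwr hmax hV hI1 hI2
  obtain ⟨A, B, V₁, S, hAB, hwAB, hev, hV1, hdeg, hprod, hIn⟩ :=
    h1 k f s P Q V hsq hPQ hwr hV hs hI1 hI2
  rw [← hdeg] at hmax ⊢
  have hc := h2 k f A B V₁ S hf hsq hAB hwAB hev hV1 hmax hprod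
  have hf0 : f ≠ 0 := by
    rintro rfl
    rw [natDegree_zero] at hf
    omega
  have hcases : S.card = 0 ∨ S.card = 2 ∨ S.card = 4 := by
    obtain ⟨r, hr⟩ := hev
    omega
  rcases hcases with h0 | h0 | h0
  · exfalso
    rw [Finset.card_eq_zero] at h0
    rw [h0, Finset.prod_empty] at hprod
    have h5 := congrArg natDegree hprod
    rw [natDegree_mul hf0 (pow_ne_zero 2 hV1), hf, natDegree_one] at h5
    omega
  · exfalso
    have h6 := h0
    rw [Finset.card_eq_two] at h0
    obtain ⟨l, m, hlm, hS⟩ := h0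
    rw [hS, Finset.prod_pair hlm] at hprod
    rw [h6] at hIn
    refine h3 k f s A B V₁ l m hf hsq hs hs1 hAB hwAB hV1 hlm hprod ?_
    have e2 : (2 : ℕ) / 2 = 1 := rfl
    rw [e2, pow_one] at hIn
    exact hIn
  · rw [Finset.card_eq_succ] at h0
    obtain ⟨a, t, hat, hS, ht⟩ := h0
    rw [Finset.card_eq_three] at ht
    obtain ⟨b, c, d, hbc, hbd, hcd, htt⟩ := ht
    have hab : a ≠ b := by
      rintro rfl
      exact hat (by rw [htt]; simp)
    have hac : a ≠ c := by
      rintro rfl
      exact hat (by rw [htt]; simp)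
    have had : a ≠ d := by
      rintro rfl
      exact hat (by rw [htt]; simp)
    refine h4 k f A B V₁ a b c d hab hac had hbc hbd hcd hwAB ?_
    rw [hprod, ← hS, Finset.prod_insert hat, htt]
    rw [Finset.prod_insert (by simp [hbc, hbd]), Finset.prod_pair hcd]
    ring

end Pool.Agent.COV.H27
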