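import Pool.Agent.COV.StmtsD
import Pool.Agent.Helper3_TTC.HT6

set_option autoImplicit false

/-! Squad COV, row HT9: the height of the odd model, coefficients in a number field. -/

open Polynomial NumberField

namespace Pool.Agent.COV.H27H

open Pool.Agent.TTC Pool.Agent.TTC.H3

/-- `a_0 α` is bounded -/
lemma beB (a : Fin 7 → ℂ) (α : ℂ) (M : ℝ) (hM : 1 ≤ M) (ha : ∀ i, ‖a i‖ ≤ M)
    (h : a 0 * α ^ 6 + a 1 * α ^ 5 + a 2 * α ^ 4 + a 3 * α ^ 3 + a 4 * α ^ 2 + a 5 * α + a 6 = 0) :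
    ‖a 0 * α‖ ≤ 1 + M ^ 6 := by
  refine c6 _ _ (norm_nonneg _) (by positivity) ?_
  generalize hβ : a 0 * α = β
  have he : β ^ 6 = -(a 1 * β ^ 5 + a 2 * a 0 * β ^ 4 + a 3 * a 0 ^ 2 * β ^ 3 +
      a 4 * a 0 ^ 3 * β ^ 2 + a 5 * a 0 ^ 4 * β + a 6 * a 0 ^ 5) := by
    subst hβ
    linear_combination (a 0 ^ 5) * h
  have hc : ∀ (i : Fin 7) (m : ℕ), m ≤ 5 → ‖a i * a 0 ^ m‖ ≤ M ^ 6 := by
    intro i m hm
    calc ‖a i * a 0 ^ m‖ = ‖a i‖ * ‖a 0‖ ^ m := by rw [norm_mul, norm_pow]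
      _ ≤ M * M ^ m := mul_le_mul (ha i) (pow_le_pow_left₀ (norm_nonneg _) (ha 0) m)
          (by positivity) (by linarith)
      _ = M ^ (m + 1) := by ring
      _ ≤ M ^ 6 := pow_le_pow_right₀ hM (by omega)
  have ht : ∀ (u : ℂ) (n : ℕ), ‖u‖ ≤ M ^ 6 → ‖u * β ^ n‖ ≤ M ^ 6 * ‖β‖ ^ n := by
    intro u n hu
    rw [norm_mul, norm_pow]
    exact mul_le_mul_of_nonneg_right hu (pow_nonneg (norm_nonneg _) _)
  have k1 : ‖a 1‖ ≤ M ^ 6 := by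
    have := hc 1 0 (by norm_num)
    simpa using this
  have k2 : ‖a 2 * a 0‖ ≤ M ^ 6 := by
    have := hc 2 1 (by norm_num)
    simpa using this
  have h2 : ‖-(a 1 * β ^ 5 + a 2 * a 0 * β ^ 4 + a 3 * a 0 ^ 2 * β ^ 3 +
      a 4 * a 0 ^ 3 * β ^ 2 + a 5 * a 0 ^ 4 * β + a 6 * a 0 ^ 5)‖ ≤
      M ^ 6 * ‖β‖ ^ 5 + M ^ 6 * ‖β‖ ^ 4 + M ^ 6 * ‖β‖ ^ 3 + M ^ 6 * ‖β‖ ^ 2 + M ^ 6 * ‖β‖ + M ^ 6 := by
    rw [norm_neg]
    refine (norm_add_le _ _).trans (add_le_add ((norm_add_le _ _).trans (add_le_add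
      ((norm_add_le _ _).trans (add_le_add ((norm_add_le _ _).trans (add_le_add
      ((norm_add_le _ _).trans (add_le_add (ht _ 5 k1) (ht _ 4 k2)))
      (ht _ 3 (hc 3 2 (by norm_num))))) (ht _ 2 (hc 4 3 (by norm_num))))) ?_))
      (hc 6 5 (by norm_num)))
    have := ht _ 1 (hc 5 4 (by norm_num))
    rwa [pow_one, pow_one] at this
  rw [← he, norm_pow] at h2
  calc ‖β‖ ^ 6 ≤ _ := h2
    _ = _ := by ring

/-- `a_0^(6-j) T_j` as a polynomial in `a_0 α` -/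
lemma uc (a : Fin 7 → ℂ) (α : ℂ) (j : ℕ) (h1 : 1 ≤ j) (h6 : j ≤ 6) :
    (taylor α (sext a)).coeff j * a 0 ^ (6 - j) =
    ((Nat.choose 6 j : ℕ) : ℂ) * (a 0 * ((a 0 * α) ^ (6 - j) * a 0 ^ 0)) +
    ((Nat.choose 5 j : ℕ) : ℂ) * (a 1 * ((a 0 * α) ^ (5 - j) * a 0 ^ 1)) +
    ((Nat.choose 4 j : ℕ) : ℂ) * (a 2 * ((a 0 * α) ^ (4 - j) * a 0 ^ 2)) +
    ((Nat.choose 3 j : ℕ) : ℂ) * (a 3 * ((a 0 * α) ^ (3 - j) * a 0 ^ 3)) +
    ((Nat.choose 2 j : ℕ) : ℂ) * (a 4 * ((a 0 * α) ^ (2 - j) * a 0 ^ 4)) +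
    ((Nat.choose 1 j : ℕ) : ℂ) * (a 5 * ((a 0 * α) ^ (1 - j) * a 0 ^ 5)) +
    ((Nat.choose 0 j : ℕ) : ℂ) * (a 6 * ((a 0 * α) ^ (0 - j) * a 0 ^ 6)) := by
  rw [tc]
  interval_cases j <;> simp [Nat.choose] <;> ring

lemma uB {N : ℝ} (hN : 4 ≤ N) (a : Fin 7 → ℂ) (α : ℂ) (ha : ∀ i, ‖a i‖ ≤ N ^ 1)
    (hβ : ‖a 0 * α‖ ≤ N ^ 6) (j : ℕ) (h1 : 1 ≤ j) (h6 : j ≤ 6) :
    ‖(taylor α (sext a)).coeff j * a 0 ^ (6 - j)‖ ≤ N ^ 46 := by
  rw [uc a α j h1 h6]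
  have hterm : ∀ (i : Fin 7) (n m : ℕ), n ≤ 6 → m ≤ 6 →
      ‖((Nat.choose n j : ℕ) : ℂ) * (a i * ((a 0 * α) ^ (n - j) * a 0 ^ m))‖ ≤ N ^ 40 := by
    intro i n m hn hm
    have hk : Nat.choose n j ≤ 64 :=
      calc Nat.choose n j ≤ 2 ^ n := Nat.choose_le_two_pow n j
        _ ≤ 2 ^ 6 := Nat.pow_le_pow_right (by norm_num) hn
        _ = 64 := by norm_num
    exact up hN 40 (by omega) (nB hN _ hk (mB (ha i) (mB (pB (n - j) hβ) (pB m (ha 0)))))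
  exact aB hN (aB hN (aB hN (aB hN (aB hN (aB hN (hterm 0 6 0 (by norm_num) (by norm_num))
    (hterm 1 5 1 (by norm_num) (by norm_num)))
    (hterm 2 4 2 (by norm_num) (by norm_num))) (hterm 3 3 3 (by norm_num) (by norm_num)))
    (hterm 4 2 4 (by norm_num) (by norm_num)))
    (hterm 5 1 5 (by norm_num) (by norm_num))) (hterm 6 0 6 (by norm_num) (by norm_num))

lemma omB9 {N : ℝ} (hN : 4 ≤ N) (a : Fin 7 → ℂ) (α : ℂ) (ha : ∀ i, ‖a i‖ ≤ N ^ 1)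
    (hβ : ‖a 0 * α‖ ≤ N ^ 6) (z : ℂ) (hz : (TTC.om a α).IsRoot z) : ‖z‖ ≤ 1 + N ^ 230 := by
  have hU := uB hN a α ha hβ
  have hN1 : (1 : ℝ) ≤ N := by linarith
  have u1 := hU 1 (by norm_num) (by norm_num)
  have u2 := hU 2 (by norm_num) (by norm_num)
  have u3 := hU 3 (by norm_num) (by norm_num)
  have u4 := hU 4 (by norm_num) (by norm_num)
  have u5 := hU 5 (by norm_num) (by norm_num)
  have u6 := hU 6 (by norm_num) (by norm_num)
  norm_num only at u1 u2 u3 u4 u5 u6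
  have he : (TTC.om a α).eval z = 0 := hz
  unfold TTC.om at he
  simp only [eval_add, eval_mul, eval_C, eval_X, eval_pow] at he
  generalize (taylor α (sext a)).coeff 1 = t1 at *
  generalize (taylor α (sext a)).coeff 2 = t2 at *
  generalize (taylor α (sext a)).coeff 3 = t3 at *
  generalize (taylor α (sext a)).coeff 4 = t4 at *
  generalize (taylor α (sext a)).coeff 5 = t5 at *
  generalize (taylor α (sext a)).coeff 6 = t6 at *
  have k2 : ‖t2 * a 0 ^ 4‖ ≤ N ^ 230 := up hN 230 (by norm_num) u2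
  have k3 : ‖t3 * t1 * a 0 ^ 8‖ ≤ N ^ 230 := by
    have e : t3 * t1 * a 0 ^ 8 = (t3 * a 0 ^ 3) * (t1 * a 0 ^ 5) := by ring
    rw [e]
    exact up hN 230 (by norm_num) (mB u3 u1)
  have k4 : ‖t4 * t1 ^ 2 * a 0 ^ 12‖ ≤ N ^ 230 := by
    have e : t4 * t1 ^ 2 * a 0 ^ 12 = (t4 * a 0 ^ 2) * (t1 * a 0 ^ 5) ^ 2 := by ring
    rw [e]
    exact up hN 230 (by norm_num) (mB u4 (pB 2 u1))
  have k5 : ‖t5 * t1 ^ 3 * a 0 ^ 16‖ ≤ N ^ 230 := by
    have e : t5 * t1 ^ 3 * a 0 ^ 16 = (t5 * a 0 ^ 1) * (t1 * a 0 ^ 5) ^ 3 := by ring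
    rw [e]
    exact up hN 230 (by norm_num) (mB u5 (pB 3 u1))
  have k6 : ‖t6 * t1 ^ 4 * a 0 ^ 20‖ ≤ N ^ 230 := by
    have e : t6 * t1 ^ 4 * a 0 ^ 20 = (t6 * a 0 ^ 0) * (t1 * a 0 ^ 5) ^ 4 := by ring
    rw [e]
    exact up hN 230 (by norm_num) (mB u6 (pB 4 u1))
  clear u1 u2 u3 u4 u5 u6
  generalize t2 * a 0 ^ 4 = u2 at *
  generalize t3 * t1 * a 0 ^ 8 = u3 at *
  generalize t4 * t1 ^ 2 * a 0 ^ 12 = u4 at *
  generalize t5 * t1 ^ 3 * a 0 ^ 16 = u5 at *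
  generalize t6 * t1 ^ 4 * a 0 ^ 20 = u6 at *
  have hD : (0 : ℝ) ≤ N ^ 230 := by positivity
  generalize N ^ 230 = D at *
  refine c5 _ _ (norm_nonneg _) hD ?_
  have he' : z ^ 5 = -(u2 * z ^ 4 + u3 * z ^ 3 + u4 * z ^ 2 + u5 * z + u6) := by
    linear_combination he
  have ht : ∀ (u : ℂ) (n : ℕ), ‖u‖ ≤ D → ‖u * z ^ n‖ ≤ D * ‖z‖ ^ n := by
    intro u n hu
    rw [norm_mul, norm_pow]
    exact mul_le_mul_of_nonneg_right hu (pow_nonneg (norm_nonneg _) _)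
  have h2 : ‖-(u2 * z ^ 4 + u3 * z ^ 3 + u4 * z ^ 2 + u5 * z + u6)‖ ≤
      D * ‖z‖ ^ 4 + D * ‖z‖ ^ 3 + D * ‖z‖ ^ 2 + D * ‖z‖ + D := by
    rw [norm_neg]
    refine (norm_add_le _ _).trans (add_le_add ((norm_add_le _ _).trans (add_le_add
      ((norm_add_le _ _).trans (add_le_add ((norm_add_le _ _).trans (add_le_add
      (ht _ 4 k2) (ht _ 3 k3))) (ht _ 2 k4))) ?_)) k6)
    have := ht _ 1 k5
    rwa [pow_one, pow_one] at this
  rw [← he', norm_pow] at h2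
  calc ‖z‖ ^ 5 ≤ _ := h2
    _ = _ := by ring

/-- **HT9** of squad COV. -/
theorem ht9 (na6 : TTC.Na6Stmt) : Ht9Stmt := by
  refine ⟨231, ?_⟩
  intro K _ _ a α M hM ha h0 hα
  have hMr : (1 : ℝ) ≤ M := by exact_mod_cast hM
  have hN : (4 : ℝ) ≤ 4 * M := by linarith
  have hlog : 0 ≤ Real.log (4 * M) := Real.log_nonneg (by linarith)
  -- the equation of α
  have heq : a 0 * α ^ 6 + a 1 * α ^ 5 + a 2 * α ^ 4 + a 3 * α ^ 3 + a 4 * α ^ 2 + a 5 * α + a 6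
      = 0 := by
    unfold sext at hα
    simpa using hα
  have hv : ∀ v : NumberField.InfinitePlace K,
      Real.log (SZT.spr ((TTC.om a α).map v.embedding)) ≤ 231 * Real.log (4 * M) := by
    intro v
    have hom : (TTC.om a α).map v.embedding = TTC.om (fun i => v.embedding (a i)) (v.embedding α) :=
      ((na6 K ℂ v.embedding a).2.2.2 α).symm
    have heq' := congrArg v.embedding heq
    simp only [map_add, map_mul, map_pow, map_zero] at heq'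
    have hβ := beB (fun i => v.embedding (a i)) (v.embedding α) M hMr (fun i => ha v.embedding i)
      heq'
    have hβN : ‖v.embedding (a 0) * v.embedding α‖ ≤ (4 * M : ℝ) ^ 6 := by
      refine hβ.trans ?_
      have h1 : (1 : ℝ) ≤ (M : ℝ) ^ 6 := one_le_pow₀ hMr
      have h2 : (4 * M : ℝ) ^ 6 = 4096 * (M : ℝ) ^ 6 := by ring
      rw [h2]
      linarith
    have haN : ∀ i, ‖v.embedding (a i)‖ ≤ (4 * M : ℝ) ^ 1 := fun i => by
      rw [pow_one]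
      have := ha v.embedding i
      linarith
    rw [hom]
    have hD : (1 : ℝ) ≤ (4 * M : ℝ) ^ 230 := one_le_pow₀ (by linarith)
    have hspr : SZT.spr (TTC.om (fun i => v.embedding (a i)) (v.embedding α)) ≤ (4 * M : ℝ) ^ 231 := by
      unfold SZT.spr
      refine Real.sSup_le ?_ (by positivity)
      rintro r ⟨x, y, hx, hy, rfl⟩
      have h1 := omB9 hN _ _ haN hβN x hx
      have h2 := omB9 hN _ _ haN hβN y hy
      calc ‖x - y‖ ≤ ‖x‖ + ‖y‖ := norm_sub_le _ _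
        _ ≤ (4 * M : ℝ) ^ 230 * 4 := by linarith
        _ ≤ (4 * M : ℝ) ^ 230 * (4 * M) := mul_le_mul_of_nonneg_left hN (by positivity)
        _ = (4 * M : ℝ) ^ 231 := (pow_succ _ _).symm
    have hspr0 : 0 ≤ SZT.spr (TTC.om (fun i => v.embedding (a i)) (v.embedding α)) := by
      unfold SZT.spr
      refine Real.sSup_nonneg ?_
      rintro r ⟨x, y, hx, hy, rfl⟩
      exact norm_nonneg _
    rcases hspr0.eq_or_lt with h | h
    · rw [← h, Real.log_zero]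
      positivity
    · calc Real.log _ ≤ Real.log ((4 * M : ℝ) ^ 231) := Real.log_le_log h hspr
        _ = 231 * Real.log (4 * M) := by
          rw [Real.log_pow]
          norm_num
  unfold SZT.lH
  calc ∑ v : NumberField.InfinitePlace K, (v.mult : ℝ)
        * Real.log (SZT.spr ((TTC.om a α).map v.embedding))
      ≤ ∑ v : NumberField.InfinitePlace K, (v.mult : ℝ) * (231 * Real.log (4 * M)) :=
        Finset.sum_le_sum fun v _ => mul_le_mul_of_nonneg_left (hv v) (Nat.cast_nonneg _)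
    _ = (Module.finrank ℚ K : ℝ) * (((231 : ℕ) : ℝ) * Real.log (4 * M)) := by
        rw [← Finset.sum_mul, ← NumberField.InfinitePlace.sum_mult_eq (K := K)]
        push_cast
        rfl

end Pool.Agent.COV.H27H
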