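import Pool.Agent.COV.StmtsB

set_option autoImplicit false

/-!
# COV, row PRS: pairs of points
-/

namespace Pool.Agent.COV.H27P

open Polynomial Pool.Agent.KDT.Z

variable {F : Type} [Field F]

theorem pA_prod (q : Fin 4 → F) {a b : F} (h0 : q 0 = a + b) (h1 : q 1 = a * b) :
    pA q = (X - C a) * (X - C b) := by
  unfold pA
  rw [h0, h1, C_add, C_mul]
  ring

theorem pB_eval (q : Fin 4 → F) (a : F) : (pB q).eval a = q 3 * a + q 2 := by
  unfold pB
  simp

theorem on_of {f : F[X]} {q : Fin 4 → F} {a b : F} (hq : On f q)
    (hA : pA q = (X - C a) * (X - C b)) : (pB q).eval a ^ 2 = f.eval a := by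
  obtain ⟨h, hh⟩ := hq
  have h1 := congrArg (Polynomial.eval a) hh
  rw [hA] at h1
  simp only [eval_sub, eval_mul, eval_X, eval_C, eval_pow, sub_self, zero_mul] at h1
  exact sub_eq_zero.1 h1

theorem pt_ext {f : F[X]} {z w : Pt f} (h1 : z.a = w.a) (h2 : z.b = w.b) : z = w := by
  cases z
  cases w
  simp only at h1 h2
  subst h1
  subst h2
  rfl

theorem dvd_sq {G : F[X]} {a : F} (h0 : G.eval a = 0) (h1 : (derivative G).eval a = 0) :
    (X - C a) * (X - C a) ∣ G := by
  obtain ⟨H, hH⟩ := dvd_iff_isRoot.2 h0
  have h2 : H.eval a = 0 := by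
    rw [hH, derivative_mul] at h1
    simp only [eval_add, eval_mul, eval_sub, eval_X, eval_C, sub_self, zero_mul, add_zero,
      derivative_sub, derivative_X, derivative_C, sub_zero, eval_one, one_mul] at h1
    exact h1
  obtain ⟨K, hK⟩ := dvd_iff_isRoot.2 h2
  exact ⟨K, by rw [hH, hK]; ring⟩

theorem prs : PrsStmt := by
  intro F _ _ _ f J _ th cl hJ
  refine ⟨?_, ?_⟩
  · intro q hq
    have hdeg : (pA q).degree ≠ 0 := by
      unfold pA
      rw [sub_add]
      have h2 : (X ^ 2 : F[X]).degree = 2 := degree_X_pow 2
      have h3 : (C (q 0) * X - C (q 1) : F[X]).degree < 2 := by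
        refine lt_of_le_of_lt (degree_sub_le _ _) ?_
        refine max_lt ?_ ?_
        · exact lt_of_le_of_lt (degree_C_mul_X_le _) (by decide)
        · exact lt_of_le_of_lt degree_C_le (by decide)
      rw [degree_sub_eq_left_of_degree_lt (by rw [h2]; exact h3), h2]
      decide
    obtain ⟨a, ha⟩ := IsAlgClosed.exists_root (pA q) hdeg
    have ha' : a ^ 2 - q 0 * a + q 1 = 0 := by
      have h1 : (pA q).eval a = 0 := ha
      unfold pA at h1
      simpa using h1
    have hA : pA q = (X - C a) * (X - C (q 0 - a)) := by
      apply pA_prod q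
      · ring
      · linear_combination ha'
    have hA' : pA q = (X - C (q 0 - a)) * (X - C a) := by rw [hA, mul_comm]
    refine ⟨⟨a, (pB q).eval a, on_of hq hA⟩, ⟨q 0 - a, (pB q).eval (q 0 - a), on_of hq hA'⟩,
      ⟨hA, rfl, rfl⟩, ?_⟩
    exact hJ.split q _ _ hq hA rfl rfl
  · intro z w hzw
    by_cases hne : z.a = w.a
    · have hsq : (z.b - w.b) * (z.b + w.b) = 0 := by
        have h1 := z.on
        have h2 := w.on
        rw [hne] at h1
        linear_combination h1 - h2
      have hneg : z.b + w.b ≠ 0 := by
        intro h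
        apply hzw
        have h1 : w = z.neg := by
          apply pt_ext
          · exact hne.symm
          · exact eq_neg_of_add_eq_zero_right h
        rw [h1, hJ.th_neg, add_neg_cancel]
      have hb : z.b = w.b := by
        rcases mul_eq_zero.1 hsq with h | h
        · exact sub_eq_zero.1 h
        · exact absurd h hneg
      have hzb : z.b ≠ 0 := by
        intro h
        apply hneg
        rw [← hb, h, add_zero]
      have hw : w = z := (pt_ext hne hb).symm
      subst hw
      set b1 : F := (derivative f).eval w.a / (2 * w.b) with hb1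
      have h2b : (2 : F) * w.b ≠ 0 := mul_ne_zero two_ne_zero hzb
      have hb1' : 2 * w.b * b1 = (derivative f).eval w.a := by
        rw [hb1]
        field_simp
      let q : Fin 4 → F := ![w.a + w.a, w.a * w.a, w.b - b1 * w.a, b1]
      have q2 : q 2 = w.b - b1 * w.a := rfl
      have q3 : q 3 = b1 := rfl
      have hA : pA q = (X - C w.a) * (X - C w.a) := pA_prod q rfl rfl
      have hB : (pB q).eval w.a = w.b := by
        rw [pB_eval, q2, q3]
        ring
      have hon : On f q := by
        unfold On
        rw [hA]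
        apply dvd_sq
        · rw [eval_sub, eval_pow, hB, w.on, sub_self]
        · have hd : (derivative (pB q)).eval w.a = b1 := by
            unfold pB
            simp [q3]
          rw [derivative_sub, eval_sub, derivative_pow, eval_mul, hd]
          simp only [eval_mul, eval_C, eval_pow, hB]
          rw [← hb1']
          push_cast
          ring
      exact ⟨q, hon, ⟨hA, hB, hB⟩, hJ.split q _ _ hon hA hB hB⟩
    · have hd : z.a - w.a ≠ 0 := sub_ne_zero.2 hne
      set b1 : F := (z.b - w.b) / (z.a - w.a) with hb1
      have hb1' : b1 * (z.a - w.a) = z.b - w.b := by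
        rw [hb1]
        field_simp
      let q : Fin 4 → F := ![z.a + w.a, z.a * w.a, z.b - b1 * z.a, b1]
      have q2 : q 2 = z.b - b1 * z.a := rfl
      have q3 : q 3 = b1 := rfl
      have hA : pA q = (X - C z.a) * (X - C w.a) := pA_prod q rfl rfl
      have hBz : (pB q).eval z.a = z.b := by
        rw [pB_eval, q2, q3]
        ring
      have hBw : (pB q).eval w.a = w.b := by
        rw [pB_eval, q2, q3]
        linear_combination -hb1'
      have hon : On f q := by
        unfold On
        rw [hA]
        apply IsCoprime.mul_dvd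
        · exact isCoprime_X_sub_C_of_isUnit_sub (IsUnit.mk0 _ hd)
        · apply dvd_iff_isRoot.2
          show (pB q ^ 2 - f).eval z.a = 0
          rw [eval_sub, eval_pow, hBz, z.on, sub_self]
        · apply dvd_iff_isRoot.2
          show (pB q ^ 2 - f).eval w.a = 0
          rw [eval_sub, eval_pow, hBw, w.on, sub_self]
      exact ⟨q, hon, ⟨hA, hBz, hBw⟩, hJ.split q _ _ hon hA hBz hBw⟩

end Pool.Agent.COV.H27P
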